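import Pool.Agent.Helper57.PairDefs

open MeasureTheory Set

namespace Pool.Agent.Helper57.PC

/-- sinc squared -/
noncomputable def sq (u : ℝ) : ℝ := (Real.sin (Real.pi * u) / (Real.pi * u)) ^ 2

lemma pcDensity_eq (u : ℝ) : pcDensity u = 1 - sq u := rfl

lemma sq_nonneg' (u : ℝ) : 0 ≤ sq u := sq_nonneg _

lemma sq_le_one (u : ℝ) : sq u ≤ 1 := by
  unfold sq
  rw [sq_le_one_iff_abs_le_one, abs_div]
  rcases eq_or_ne (Real.pi * u) 0 with h | h
  · rw [h]; simp
  · rw [div_le_one (abs_pos.mpr h)]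
    exact Real.abs_sin_le_abs

lemma measurable_sq : Measurable sq := by
  unfold sq
  fun_prop

lemma ii_of_bdd {f : ℝ → ℝ} (hm : Measurable f) (hb : ∀ x, ‖f x‖ ≤ 1) (a b : ℝ) :
    IntervalIntegrable f volume a b := by
  have h1 : IntervalIntegrable (fun _ : ℝ => (1:ℝ)) volume a b := intervalIntegrable_const
  apply h1.mono_fun hm.aestronglyMeasurable
  filter_upwards with u
  rw [norm_one]
  exact hb u

lemma norm_sq_le_one (u : ℝ) : ‖sq u‖ ≤ 1 := by
  rw [Real.norm_of_nonneg (sq_nonneg' u)]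
  exact sq_le_one u

lemma intervalIntegrable_sq (a b : ℝ) : IntervalIntegrable sq volume a b :=
  ii_of_bdd measurable_sq norm_sq_le_one a b

lemma pcDensity_nonneg (u : ℝ) : 0 ≤ pcDensity u := by
  rw [pcDensity_eq]; linarith [sq_le_one u]

lemma pcDensity_le_one (u : ℝ) : pcDensity u ≤ 1 := by
  rw [pcDensity_eq]; linarith [sq_nonneg' u]

lemma intervalIntegrable_pcDensity (a b : ℝ) : IntervalIntegrable pcDensity volume a b := by
  have : pcDensity = fun u => 1 - sq u := rfl
  rw [this]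
  exact intervalIntegrable_const.sub (intervalIntegrable_sq a b)

lemma integral_pcDensity (a b : ℝ) :
    ∫ u in a..b, pcDensity u = (b - a) - ∫ u in a..b, sq u := by
  have : pcDensity = fun u => 1 - sq u := rfl
  rw [this, intervalIntegral.integral_sub intervalIntegrable_const (intervalIntegrable_sq a b)]
  simp

/-- The Fejér kernel identity as a finite trigonometric sum: 
(sin (π n x))² / (sin (π x))² integrates to n over a period. We use the form
∫_{-1/2}^{1/2} |∑_{k<n} e(kx)|² dx = n. -/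
lemma fejer_integral (n : ℕ) :
    ∫ x in (-(1/2):ℝ)..(1/2), ‖∑ k ∈ Finset.range n, Complex.exp (2 * Real.pi * Complex.I * k * x)‖ ^ 2
      = n := by
  -- expand the square
  have e1 : ∀ x : ℝ, ((‖∑ k ∈ Finset.range n, Complex.exp (2 * Real.pi * Complex.I * k * x)‖ ^ 2 : ℝ) : ℂ) =
      ∑ k ∈ Finset.range n, ∑ l ∈ Finset.range n,
        Complex.exp (2 * Real.pi * Complex.I * ((k:ℂ) - l) * x) := by
    intro x
    rw [← Complex.normSq_eq_norm_sq, ← Complex.mul_conj, map_sum, Finset.sum_mul_sum]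
    apply Finset.sum_congr rfl; intro k _
    apply Finset.sum_congr rfl; intro l _
    rw [← Complex.exp_conj, ← Complex.exp_add]
    congr 1
    simp only [map_mul, Complex.conj_ofReal, Complex.conj_I, map_natCast, map_ofNat]
    ring
  have e2 : ∀ m : ℤ, ∫ x in (-(1/2):ℝ)..(1/2), Complex.exp (2 * Real.pi * Complex.I * (m:ℂ) * x) =
      if m = 0 then 1 else 0 := by
    intro m
    split_ifs with h
    · rw [h]; simp; norm_num
    · have hc : (2 * Real.pi * Complex.I * (m:ℂ)) ≠ 0 := by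
        have : (m:ℂ) ≠ 0 := by exact_mod_cast h
        have hpi : (Real.pi : ℂ) ≠ 0 := by exact_mod_cast Real.pi_ne_zero
        simp [this, hpi]
      rw [integral_exp_mul_complex hc]
      have h1 : Complex.exp (2 * Real.pi * Complex.I * (m:ℂ) * ((1/2 : ℝ):ℂ)) =
          Complex.exp (2 * Real.pi * Complex.I * (m:ℂ) * ((-(1/2) : ℝ):ℂ)) := by
        have : 2 * Real.pi * Complex.I * (m:ℂ) * ((1/2 : ℝ):ℂ) =
            2 * Real.pi * Complex.I * (m:ℂ) * ((-(1/2) : ℝ):ℂ) + m * (2 * Real.pi * Complex.I) := by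
          push_cast; ring
        rw [this]
        exact Complex.exp_periodic.int_mul m _
      rw [h1]; simp
  have e3 : ((∫ x in (-(1/2):ℝ)..(1/2),
      ‖∑ k ∈ Finset.range n, Complex.exp (2 * Real.pi * Complex.I * k * x)‖ ^ 2 : ℝ) : ℂ) = (n : ℂ) := by
    rw [← intervalIntegral.integral_ofReal]
    simp only [e1]
    rw [intervalIntegral.integral_finsetSum]
    · have : ∀ k ∈ Finset.range n, ∫ x in (-(1/2):ℝ)..(1/2), ∑ l ∈ Finset.range n,
          Complex.exp (2 * Real.pi * Complex.I * ((k:ℂ) - l) * x) = 1 := by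
        intro k hk
        rw [intervalIntegral.integral_finsetSum]
        · have e4 : ∀ l ∈ Finset.range n, ∫ x in (-(1/2):ℝ)..(1/2),
              Complex.exp (2 * Real.pi * Complex.I * ((k:ℂ) - l) * x) =
              if l = k then 1 else 0 := by
            intro l _
            have := e2 ((k:ℤ) - l)
            push_cast at this
            rw [this]
            by_cases h : l = k
            · rw [h]; simp
            · rw [if_neg h, if_neg]
              intro h2; apply h; omega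
          rw [Finset.sum_congr rfl e4]
          simp [Finset.mem_range.mp hk]
        · intro l _
          apply Continuous.intervalIntegrable
          fun_prop
      rw [Finset.sum_congr rfl this]
      simp
    · intro k _
      apply Continuous.intervalIntegrable
      fun_prop
  exact_mod_cast e3

/-- pointwise closed form of the Fejér sum -/
lemma fejer_pointwise (n : ℕ) (x : ℝ) (hx : Real.sin (Real.pi * x) ≠ 0) :
    ‖∑ k ∈ Finset.range n, Complex.exp (2 * Real.pi * Complex.I * k * x)‖ ^ 2 =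
      Real.sin (Real.pi * n * x) ^ 2 / Real.sin (Real.pi * x) ^ 2 := by
  set q : ℂ := Complex.exp (2 * Real.pi * Complex.I * x) with hq
  have hterm : ∀ k : ℕ, Complex.exp (2 * Real.pi * Complex.I * k * x) = q ^ k := by
    intro k
    rw [hq, ← Complex.exp_nat_mul]; congr 1; ring
  have hnorm : ∀ y : ℝ, ‖Complex.exp (2 * Real.pi * Complex.I * y) - 1‖ ^ 2 =
      4 * Real.sin (Real.pi * y) ^ 2 := by
    intro y
    have h1 : Complex.exp (2 * Real.pi * Complex.I * y) =
        ((Real.cos (2 * (Real.pi * y)) : ℝ) : ℂ) + (Real.sin (2 * (Real.pi * y)) : ℝ) * Complex.I := by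
      rw [show (2 * Real.pi * Complex.I * y : ℂ) = ((2 * (Real.pi * y) : ℝ) : ℂ) * Complex.I by
        push_cast; ring, Complex.exp_mul_I]
      push_cast; rfl
    rw [h1, ← Complex.normSq_eq_norm_sq, Complex.normSq_apply]
    simp only [Complex.sub_re, Complex.add_re, Complex.ofReal_re, Complex.mul_re, Complex.I_re,
      mul_zero, Complex.ofReal_im, Complex.I_im, mul_one, sub_self, add_zero, Complex.one_re,
      Complex.sub_im, Complex.add_im, Complex.mul_im, zero_add, Complex.one_im, sub_zero]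
    have h2 := Real.sin_sq_add_cos_sq (2 * (Real.pi * y))
    have h3 : Real.cos (2 * (Real.pi * y)) = 1 - 2 * Real.sin (Real.pi * y) ^ 2 := by
      rw [Real.cos_two_mul, Real.cos_sq']; ring
    nlinarith
  have hq1 : q ≠ 1 := by
    intro h
    have := hnorm x
    rw [← hq, h] at this
    simp at this
    exact hx this
  rw [Finset.sum_congr rfl fun k _ => hterm k, geom_sum_eq hq1, norm_div, div_pow]
  have h4 : ‖q ^ n - 1‖ ^ 2 = 4 * Real.sin (Real.pi * n * x) ^ 2 := by
    have : q ^ n = Complex.exp (2 * Real.pi * Complex.I * ((n * x : ℝ) : ℂ)) := by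
      rw [hq, ← Complex.exp_nat_mul]; congr 1; push_cast; ring
    rw [this, hnorm]; congr 3; ring
  rw [h4, hnorm]
  field_simp

/-- sin(y)² ≥ y²/(1+y²) type inequality: 1/sin² y ≤ 1/y² + 1 on (0, π/2]. -/
lemma inv_sin_sq_le {y : ℝ} (hy : y ≠ 0) (hy2 : |y| ≤ Real.pi / 2) :
    1 / Real.sin y ^ 2 ≤ 1 / y ^ 2 + 1 := by
  -- reduce to y > 0
  wlog h : 0 < y with H
  · have := H (y := -y) (neg_ne_zero.mpr hy) (by rwa [abs_neg]) (by
      rcases lt_or_gt_of_ne hy with h1 | h1
      · linarith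
      · exact absurd h1 h)
    simpa using this
  rw [abs_of_pos h] at hy2
  -- use y ≤ tan y, i.e. cos y ≤ sin y / y
  have hs : 0 < Real.sin y := Real.sin_pos_of_pos_of_lt_pi h (by linarith [Real.pi_pos])
  have hcos : y * Real.cos y ≤ Real.sin y := by
    rcases eq_or_lt_of_le hy2 with h1 | h1
    · rw [h1, Real.cos_pi_div_two, mul_zero]
      rw [h1] at hs; exact hs.le
    · have hc : 0 < Real.cos y := Real.cos_pos_of_mem_Ioo ⟨by linarith [Real.pi_pos], h1⟩
      have := Real.le_tan h.le h1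
      rw [Real.tan_eq_sin_div_cos, le_div_iff₀ hc] at this
      exact this
  have hcos0 : 0 ≤ Real.cos y := Real.cos_nonneg_of_mem_Icc ⟨by linarith [Real.pi_pos], hy2⟩
  have h2 := Real.sin_sq_add_cos_sq y
  have h3 : (y * Real.cos y) ^ 2 ≤ Real.sin y ^ 2 := by
    apply pow_le_pow_left₀ (by positivity) hcos
  rw [div_add_one (by positivity), div_le_div_iff₀ (by positivity) (by positivity)]
  nlinarith

/-- ∫_{-N/2}^{N/2} sinc² ≥ 1 - 1/N. -/
lemma integral_sq_ge (N : ℕ) (hN : 0 < N) :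
    1 - 1 / (N:ℝ) ≤ ∫ u in (-((N:ℝ)/2))..((N:ℝ)/2), sq u := by
  have hN0 : (0:ℝ) < N := by exact_mod_cast hN
  have hsub : ∫ u in (-((N:ℝ)/2))..((N:ℝ)/2), sq u =
      N * ∫ x in (-(1/2):ℝ)..(1/2), sq (N * x) := by
    have := intervalIntegral.integral_comp_mul_left (a := (-(1/2):ℝ)) (b := 1/2) (fun u => sq u) hN0.ne'
    rw [this, smul_eq_mul, ← mul_assoc, mul_inv_cancel₀ hN0.ne', one_mul]
    congr 1 <;> ring
  have hpt : ∀ x ∈ Icc (-(1/2):ℝ) (1/2), x ≠ 0 →
      ‖∑ k ∈ Finset.range N, Complex.exp (2 * Real.pi * Complex.I * k * x)‖ ^ 2 ≤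
        (N:ℝ) ^ 2 * sq (N * x) + 1 := by
    intro x hx hx0
    have hpx : |Real.pi * x| ≤ Real.pi / 2 := by
      rw [abs_mul, abs_of_pos Real.pi_pos]
      have : |x| ≤ 1 / 2 := abs_le.mpr hx
      nlinarith [Real.pi_pos]
    have hpx0 : Real.pi * x ≠ 0 := mul_ne_zero Real.pi_ne_zero hx0
    have hsin : Real.sin (Real.pi * x) ≠ 0 := by
      intro h
      have := Real.sin_eq_zero_iff_of_lt_of_lt (x := Real.pi * x)
        (by rw [abs_le] at hpx; linarith [Real.pi_pos, hpx.1])
        (by rw [abs_le] at hpx; linarith [Real.pi_pos, hpx.2])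
      exact hpx0 (this.mp h)
    rw [fejer_pointwise N x hsin]
    have h1 := inv_sin_sq_le hpx0 hpx
    set s := Real.sin (Real.pi * N * x) ^ 2 with hs
    have hs0 : 0 ≤ s := sq_nonneg _
    have hs1 : s ≤ 1 := by rw [hs]; exact Real.sin_sq_le_one _
    have h2 : (N:ℝ) ^ 2 * sq (N * x) = s / (Real.pi * x) ^ 2 := by
      unfold sq
      rw [hs, show Real.pi * (N * x) = Real.pi * N * x by ring]
      field_simp
    rw [h2]
    calc s / Real.sin (Real.pi * x) ^ 2 = s * (1 / Real.sin (Real.pi * x) ^ 2) := by ring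
      _ ≤ s * (1 / (Real.pi * x) ^ 2 + 1) := mul_le_mul_of_nonneg_left h1 hs0
      _ = s / (Real.pi * x) ^ 2 + s := by ring
      _ ≤ s / (Real.pi * x) ^ 2 + 1 := by linarith
  have hint : IntervalIntegrable (fun x => (N:ℝ) ^ 2 * sq (N * x) + 1) volume (-(1/2)) (1/2) := by
    apply IntervalIntegrable.add _ intervalIntegrable_const
    apply IntervalIntegrable.const_mul
    exact ii_of_bdd (measurable_sq.comp (measurable_const_mul _)) (fun x => norm_sq_le_one _) _ _
  have hmono : ∫ x in (-(1/2):ℝ)..(1/2),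
      ‖∑ k ∈ Finset.range N, Complex.exp (2 * Real.pi * Complex.I * k * x)‖ ^ 2 ≤
      ∫ x in (-(1/2):ℝ)..(1/2), ((N:ℝ) ^ 2 * sq (N * x) + 1) := by
    apply intervalIntegral.integral_mono_ae_restrict (by norm_num)
    · apply Continuous.intervalIntegrable
      fun_prop
    · exact hint
    · have h0 : ∀ᵐ x : ℝ ∂(volume.restrict (Icc (-(1/2):ℝ) (1/2))), x ≠ 0 :=
        ae_restrict_of_ae (by
          rw [ae_iff]
          simp)
      filter_upwards [h0, ae_restrict_mem measurableSet_Icc] with x h1 h2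
      exact hpt x h2 h1
  rw [fejer_integral N] at hmono
  rw [intervalIntegral.integral_add] at hmono
  · rw [intervalIntegral.integral_const_mul] at hmono
    simp only [intervalIntegral.integral_const, smul_eq_mul, mul_one] at hmono
    rw [hsub]
    have h3 : (N:ℝ) ≤ N * (N * ∫ x in (-(1/2):ℝ)..(1/2), sq (N * x)) + 1 := by
      calc (N:ℝ) ≤ (N:ℝ) ^ 2 * (∫ x in (-(1/2):ℝ)..(1/2), sq (N * x)) + (1 / 2 - -(1/2)) := hmono
        _ = _ := by ring
    have h4 : 1 ≤ (N * ∫ x in (-(1/2):ℝ)..(1/2), sq (N * x)) + 1 / N := by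
      have h5 : (N:ℝ) * 1 ≤ N * ((N * ∫ x in (-(1/2):ℝ)..(1/2), sq (N * x)) + 1 / N) := by
        rw [mul_add, mul_one_div, div_self hN0.ne', mul_one]; exact h3
      exact le_of_mul_le_mul_left h5 hN0
    linarith
  · apply IntervalIntegrable.const_mul
    exact ii_of_bdd (measurable_sq.comp (measurable_const_mul _)) (fun x => norm_sq_le_one _) _ _
  · exact intervalIntegrable_const

lemma sq_even (u : ℝ) : sq (-u) = sq u := by
  unfold sq
  rw [show Real.pi * -u = -(Real.pi * u) by ring, Real.sin_neg, neg_div_neg_eq]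

/-- ∫_0^b sinc² ≥ 1/2 - δ for b large -/
lemma integral_sq_half (δ : ℝ) (hδ : 0 < δ) : ∃ b₀ : ℝ, 0 < b₀ ∧ ∀ b : ℝ, b₀ ≤ b →
    1 / 2 - δ ≤ ∫ u in (0:ℝ)..b, sq u := by
  obtain ⟨N, hN⟩ := exists_nat_gt (1 / δ)
  have hN0 : (0:ℝ) < N := lt_trans (by positivity) hN
  have hNn : 0 < N := by exact_mod_cast hN0
  refine ⟨(N:ℝ) / 2, by positivity, fun b hb => ?_⟩
  have h1 := integral_sq_ge N hNn
  have h2 : ∫ u in (-((N:ℝ)/2))..((N:ℝ)/2), sq u = 2 * ∫ u in (0:ℝ)..((N:ℝ)/2), sq u := by
    rw [← intervalIntegral.integral_add_adjacent_intervals (b := 0)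
      (intervalIntegrable_sq _ _) (intervalIntegrable_sq _ _)]
    have h3 : ∫ u in (-((N:ℝ)/2))..0, sq u = ∫ u in (0:ℝ)..((N:ℝ)/2), sq u := by
      have := intervalIntegral.integral_comp_neg (a := 0) (b := (N:ℝ)/2) (fun u => sq u)
      simp only [sq_even, neg_zero] at this
      exact this.symm
    rw [h3]; ring
  have h3 : ∫ u in (0:ℝ)..((N:ℝ)/2), sq u ≤ ∫ u in (0:ℝ)..b, sq u := by
    rw [← intervalIntegral.integral_add_adjacent_intervals (b := (N:ℝ)/2) (c := b)
      (intervalIntegrable_sq _ _) (intervalIntegrable_sq _ _)]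
    have : 0 ≤ ∫ u in ((N:ℝ)/2)..b, sq u :=
      intervalIntegral.integral_nonneg hb fun u _ => sq_nonneg' u
    linarith
  have h4 : 1 / (N:ℝ) < δ := by
    rw [div_lt_iff₀ hN0]
    rw [div_lt_iff₀ hδ] at hN
    linarith
  linarith

end Pool.Agent.Helper57.PC
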