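import Pool.Agent.Helper57.PC.Count

open Filter Topology MeasureTheory Set
open Pool.Agent.Helper57.Zeta

namespace Pool.Agent.Helper57.PC

lemma SN_pos {T : ℝ} (hT : 1 < T) : 0 < SN T := by
  unfold SN
  have := Real.log_pos hT
  have := Real.pi_pos
  positivity

/-- sum of b_j = (j+1)Δ -/
lemma sum_bj (Δ : ℝ) (J : ℕ) :
    ∑ j ∈ Finset.range J, ((j:ℝ) + 1) * Δ = (J:ℝ) * ((J:ℝ) + 1) / 2 * Δ := by
  induction J with
  | zero => simp
  | succ J ih => rw [Finset.sum_range_succ, ih]; push_cast; ring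

lemma sum_Q_ge {Δ : ℝ} (hΔ : 0 < Δ) {c b₀ : ℝ} (hc : 0 ≤ c) (hb₀ : 0 ≤ b₀) (Q : ℝ → ℝ)
    (hQ0 : ∀ b, 0 < b → 0 ≤ Q b) (hQ : ∀ b, b₀ < b → c ≤ Q b) (J : ℕ) :
    c * ((J:ℝ) * Δ - b₀) ≤ Δ * ∑ j ∈ Finset.range J, Q (((j:ℝ) + 1) * Δ) := by
  induction J with
  | zero =>
    simp only [Nat.cast_zero, zero_mul, zero_sub, Finset.range_zero, Finset.sum_empty, mul_zero]
    nlinarith [mul_nonneg hc hb₀]
  | succ J ih =>
    rw [Finset.sum_range_succ, mul_add]
    push_cast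
    rcases le_or_gt (((J:ℝ) + 1) * Δ) b₀ with h | h
    · have h1 : 0 ≤ Δ * ∑ j ∈ Finset.range J, Q (((j:ℝ) + 1) * Δ) := by
        apply mul_nonneg hΔ.le
        apply Finset.sum_nonneg; intro j _; exact hQ0 _ (by positivity)
      have h2 : 0 ≤ Δ * Q (((J:ℝ) + 1) * Δ) := mul_nonneg hΔ.le (hQ0 _ (by positivity))
      have h3 : c * (((J:ℝ) + 1) * Δ - b₀) ≤ 0 := by
        apply mul_nonpos_of_nonneg_of_nonpos hc; linarith
      linarith
    · have h2 : Δ * c ≤ Δ * Q (((J:ℝ) + 1) * Δ) := mul_le_mul_of_nonneg_left (hQ _ h) hΔ.le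
      have h3 : c * (((J:ℝ) + 1) * Δ - b₀) = c * ((J:ℝ) * Δ - b₀) + Δ * c := by ring
      rw [h3]
      linarith

/-- The upper-bound half of pair correlation implies the lower-bound half, up to half of the
excess of the diagonal. -/
theorem upper_implies_lower (κ : ℝ) (hκ : 0 ≤ κ)
    (hU : ∀ α β : ℝ, 0 < α → α < β → ∀ δ > 0, ∀ᶠ T in atTop,
      pairCount T α β ≤ ((∫ u in α..β, pcDensity u) + δ) * SN T)
    (hD : ∀ δ > 0, ∃ ε > 0, ∀ᶠ T in atTop, pairCount T (-ε) ε ≤ (1 + κ + δ) * SN T)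
    (α β : ℝ) (hα : 0 < α) (hαβ : α < β) (δ : ℝ) (hδ : 0 < δ) :
    ∀ᶠ T in atTop, ((∫ u in α..β, pcDensity u) - (κ / 2 + δ)) * SN T ≤ pairCount T α β := by
  by_contra hcon
  rw [not_eventually] at hcon
  set η : ℝ := κ / 2 + δ with hη
  have hη0 : 0 < η := by rw [hη]; linarith
  set d : ℝ := min (δ / 14) (1 / 4) with hd
  have hd0 : 0 < d := by rw [hd]; positivity
  have hd1 : d ≤ δ / 14 := min_le_left _ _
  have hd2 : d ≤ 1 / 4 := min_le_right _ _
  set Δ : ℝ := δ / 2 with hΔ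
  have hΔ0 : 0 < Δ := by positivity
  obtain ⟨b₀, hb₀, hQ⟩ := integral_sq_half d hd0
  obtain ⟨ε₀, hε₀, hD0⟩ := hD d hd0
  set e : ℝ := min (min ε₀ (Δ / 2)) (α / 2) with he
  have he0 : 0 < e := by rw [he]; positivity
  have heε : e ≤ ε₀ := le_trans (min_le_left _ _) (min_le_left _ _)
  have heΔ : e ≤ Δ / 2 := le_trans (min_le_left _ _) (min_le_right _ _)
  have heα : e ≤ α / 2 := min_le_right _ _
  -- choose J
  set K : ℝ := b₀ + 2 * η * β with hK
  have hβ : 0 < β := by linarith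
  have hK0 : 0 < K := by rw [hK]; positivity
  obtain ⟨J, hJ⟩ := exists_nat_gt ((K + 2) / (δ * Δ))
  have hJ0 : (0:ℝ) < J := lt_trans (by positivity) hJ
  have hJn : 0 < J := by exact_mod_cast hJ0
  set B : ℝ := (J:ℝ) * Δ with hB
  have hB0 : 0 < B := by positivity
  have hBδ : K + 2 < δ * B := by
    rw [div_lt_iff₀ (by positivity)] at hJ
    rw [hB]; linarith
  set ε : ℝ := 1 / B ^ 2 with hε
  have hε0 : 0 < ε := by positivity
  have hmeso := meso_lower hΔ0 J hJn hε0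
  -- finitely many upper bounds
  have hev1 : ∀ᶠ T in atTop, ∀ j ∈ Finset.range J,
      pairCount T e (((j:ℝ) + 1) * Δ) ≤ ((∫ u in e..(((j:ℝ) + 1) * Δ), pcDensity u) + d) * SN T := by
    rw [Filter.eventually_all_finset]
    intro j _
    apply hU _ _ he0 _ _ hd0
    have : Δ ≤ ((j:ℝ) + 1) * Δ := by
      have : (0:ℝ) ≤ j := Nat.cast_nonneg j
      nlinarith
    linarith
  have hev2 : ∀ᶠ T in atTop, ∀ j ∈ Finset.range J, β < ((j:ℝ) + 1) * Δ →
      pairCount T β (((j:ℝ) + 1) * Δ) ≤ ((∫ u in β..(((j:ℝ) + 1) * Δ), pcDensity u) + d) * SN T := by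
    rw [Filter.eventually_all_finset]
    intro j _
    by_cases h : β < ((j:ℝ) + 1) * Δ
    · filter_upwards [hU _ _ hβ h d hd0] with T hT _ using hT
    · filter_upwards with T hT using absurd hT h
  have hev3 : ∀ᶠ T in atTop, pairCount T e α ≤ ((∫ u in e..α, pcDensity u) + d) * SN T :=
    hU _ _ he0 (by linarith) _ hd0
  obtain ⟨T, hlow, hT1, hT2, hT3, hT4, hT5, hTD⟩ := (hcon.and_eventually
    ((eventually_gt_atTop 1).and (hmeso.and (hev1.and (hev2.and (hev3.and hD0)))))).exists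
  rw [not_le] at hlow
  have hS := SN_pos hT1
  set S := SN T with hSdef
  set I : ℝ := ∫ u in α..β, pcDensity u with hI
  -- pointwise upper bound for each j
  have hii := intervalIntegrable_pcDensity
  have hjb : ∀ j ∈ Finset.range J, pairCount T (-(((j:ℝ) + 1) * Δ)) (((j:ℝ) + 1) * Δ) ≤
      ((1 + κ + 5 * d) + 2 * (((j:ℝ) + 1) * Δ) - 2 * (∫ u in (0:ℝ)..(((j:ℝ) + 1) * Δ), sq u) -
        (if β < ((j:ℝ) + 1) * Δ then 2 * η else 0)) * S := by
    intro j hj
    set b : ℝ := ((j:ℝ) + 1) * Δ with hb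
    have hbe : e < b := by
      have h1 : Δ ≤ b := by
        have : (0:ℝ) ≤ j := Nat.cast_nonneg j
        rw [hb]; nlinarith
      linarith
    have hb0 : 0 < b := by linarith
    have h1 := pairCount_sym_le T (e := e) (b := b)
    have h2 : pairCount T (-e) e ≤ (1 + κ + d) * S :=
      (pairCount_mono T (neg_le_neg heε) heε).trans hTD
    have hF : ∫ u in e..b, pcDensity u ≤ b - ∫ u in (0:ℝ)..b, sq u := by
      have h3 : ∫ u in (0:ℝ)..b, pcDensity u = b - ∫ u in (0:ℝ)..b, sq u := by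
        rw [integral_pcDensity]; ring
      rw [← h3, ← intervalIntegral.integral_add_adjacent_intervals (hii 0 e) (hii e b)]
      have : 0 ≤ ∫ u in (0:ℝ)..e, pcDensity u :=
        intervalIntegral.integral_nonneg he0.le fun u _ => pcDensity_nonneg u
      linarith
    by_cases hbβ : β < b
    · rw [if_pos hbβ]
      have h3 : pairCount T e b ≤ pairCount T e α + (pairCount T α β + pairCount T β b) := by
        have h4 := pairCount_split T e α b
        have h5 := pairCount_split T α β b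
        linarith
      have h4 := hT4 j hj hbβ
      rw [← hb] at h4
      have h5 : ∫ u in e..b, pcDensity u = (∫ u in e..α, pcDensity u) + (I + ∫ u in β..b, pcDensity u) := by
        rw [hI, intervalIntegral.integral_add_adjacent_intervals (hii α β) (hii β b),
          intervalIntegral.integral_add_adjacent_intervals (hii e α) (hii α b)]
      have h6 : pairCount T e b ≤ ((∫ u in e..b, pcDensity u) - η + 2 * d) * S := by
        rw [h5]
        have h7 : ((∫ u in e..α, pcDensity u) + (I + ∫ u in β..b, pcDensity u) - η + 2 * d) * S =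
            ((∫ u in e..α, pcDensity u) + d) * S + ((I - η) * S +
              ((∫ u in β..b, pcDensity u) + d) * S) := by ring
        rw [h7]
        linarith
      have h8 : ((∫ u in e..b, pcDensity u) - η + 2 * d) * S ≤
          (b - (∫ u in (0:ℝ)..b, sq u) - η + 2 * d) * S :=
        mul_le_mul_of_nonneg_right (by linarith) hS.le
      calc pairCount T (-b) b ≤ pairCount T (-e) e + 2 * pairCount T e b := h1
        _ ≤ (1 + κ + d) * S + 2 * ((b - (∫ u in (0:ℝ)..b, sq u) - η + 2 * d) * S) := by linarith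
        _ = _ := by ring
    · rw [if_neg hbβ]
      have h6 := hT3 j hj
      rw [← hb] at h6
      have h8 : ((∫ u in e..b, pcDensity u) + d) * S ≤
          (b - (∫ u in (0:ℝ)..b, sq u) + 2 * d) * S :=
        mul_le_mul_of_nonneg_right (by linarith) hS.le
      calc pairCount T (-b) b ≤ pairCount T (-e) e + 2 * pairCount T e b := h1
        _ ≤ (1 + κ + d) * S + 2 * ((b - (∫ u in (0:ℝ)..b, sq u) + 2 * d) * S) := by linarith
        _ = _ := by ring
  have hsum := Finset.sum_le_sum hjb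
  -- evaluate the sum
  have hQsum := sum_Q_ge hΔ0 (c := 1 / 2 - d) (by linarith) hb₀.le (fun b => ∫ u in (0:ℝ)..b, sq u)
    (fun b hb => intervalIntegral.integral_nonneg hb.le fun u _ => sq_nonneg' u)
    (fun b hb => hQ b hb.le) J
  have hIsum := sum_Q_ge hΔ0 (c := 2 * η) (by positivity) hβ.le
    (fun b => if β < b then 2 * η else 0)
    (fun b _ => by split_ifs <;> positivity)
    (fun b hb => by rw [if_pos hb]) J
  have hbsum := sum_bj Δ J
  have htot : Δ * ∑ j ∈ Finset.range J, pairCount T (-(((j:ℝ) + 1) * Δ)) (((j:ℝ) + 1) * Δ) ≤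
      (B * (1 + κ + 5 * d) + (B ^ 2 + B * Δ) - 2 * ((1 / 2 - d) * (B - b₀)) -
        2 * η * (B - β)) * S := by
    have h1 : ∑ j ∈ Finset.range J, ((1 + κ + 5 * d) + 2 * (((j:ℝ) + 1) * Δ) -
        2 * (∫ u in (0:ℝ)..(((j:ℝ) + 1) * Δ), sq u) -
        (if β < ((j:ℝ) + 1) * Δ then 2 * η else 0)) * S =
        ((J:ℝ) * (1 + κ + 5 * d) + 2 * ((J:ℝ) * ((J:ℝ) + 1) / 2 * Δ) -
          2 * ∑ j ∈ Finset.range J, (∫ u in (0:ℝ)..(((j:ℝ) + 1) * Δ), sq u) -
          ∑ j ∈ Finset.range J, (if β < ((j:ℝ) + 1) * Δ then 2 * η else 0)) * S := by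
      rw [← Finset.sum_mul, Finset.sum_sub_distrib, Finset.sum_sub_distrib, Finset.sum_add_distrib,
        Finset.sum_const, Finset.card_range, nsmul_eq_mul, ← Finset.mul_sum, ← Finset.mul_sum,
        hbsum]
    rw [h1] at hsum
    have h2 := mul_le_mul_of_nonneg_left hsum hΔ0.le
    refine h2.trans ?_
    have h3 : Δ * (((J:ℝ) * (1 + κ + 5 * d) + 2 * ((J:ℝ) * ((J:ℝ) + 1) / 2 * Δ) -
          2 * ∑ j ∈ Finset.range J, (∫ u in (0:ℝ)..(((j:ℝ) + 1) * Δ), sq u) -
          ∑ j ∈ Finset.range J, (if β < ((j:ℝ) + 1) * Δ then 2 * η else 0)) * S) =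
        (B * (1 + κ + 5 * d) + (B ^ 2 + B * Δ) -
          2 * (Δ * ∑ j ∈ Finset.range J, (∫ u in (0:ℝ)..(((j:ℝ) + 1) * Δ), sq u)) -
          Δ * ∑ j ∈ Finset.range J, (if β < ((j:ℝ) + 1) * Δ then 2 * η else 0)) * S := by
      rw [hB]; ring
    rw [h3]
    apply mul_le_mul_of_nonneg_right _ hS.le
    rw [← hB] at hQsum hIsum
    linarith
  have hfin : (1 - ε) * B ^ 2 * S ≤ (B * (1 + κ + 5 * d) + (B ^ 2 + B * Δ) -
      2 * ((1 / 2 - d) * (B - b₀)) - 2 * η * (B - β)) * S := hT2.trans htot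
  have hfin2 : (1 - ε) * B ^ 2 ≤ B * (1 + κ + 5 * d) + (B ^ 2 + B * Δ) -
      2 * ((1 / 2 - d) * (B - b₀)) - 2 * η * (B - β) := le_of_mul_le_mul_right hfin hS
  have hεB : ε * B ^ 2 = 1 := by rw [hε]; field_simp
  have h1 : (1 - ε) * B ^ 2 = B ^ 2 - 1 := by
    rw [sub_mul, one_mul, hεB]
  rw [h1] at hfin2
  have h2 : B * (1 + κ + 5 * d) + (B ^ 2 + B * Δ) -
      2 * ((1 / 2 - d) * (B - b₀)) - 2 * η * (B - β) =
      B ^ 2 + B * (κ - 2 * η + 7 * d + Δ) + (1 - 2 * d) * b₀ + 2 * η * β := by ring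
  rw [h2] at hfin2
  have h3 : κ - 2 * η + 7 * d + Δ ≤ -δ := by rw [hη, hΔ]; linarith
  have h4 : B * (κ - 2 * η + 7 * d + Δ) ≤ B * (-δ) := mul_le_mul_of_nonneg_left h3 hB0.le
  have h5 : (1 - 2 * d) * b₀ ≤ b₀ := mul_le_of_le_one_left hb₀.le (by linarith)
  rw [hK] at hBδ
  have h6 : B * (-δ) = -(δ * B) := by ring
  linarith

end Pool.Agent.Helper57.PC
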