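import Mathlib

open MeasureTheory Set

namespace Pool.Agent.Helper57.PC

/-- Cauchy-Schwarz for counting functions in short windows. -/
lemma window_CS {ι : Type*} (Z : Finset ι) (γ : ι → ℝ) (m : ι → ℝ) {h T : ℝ} (hh : 0 < h)
    (hT : 0 < T) (hγ : ∀ i ∈ Z, 0 ≤ γ i ∧ γ i ≤ T) :
    (h * ∑ i ∈ Z, m i) ^ 2 ≤
      (T + h) * ∑ i ∈ Z, ∑ j ∈ Z, m i * m j * max 0 (h - |γ i - γ j|) := by
  classical
  set J : Set ℝ := Ico (-h) T with hJ
  have hJv : volume.real J = T + h := by
    rw [hJ, Real.volume_real_Ico_of_le (by linarith)]; ring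
  have : IsFiniteMeasure (volume.restrict J) := by
    constructor
    rw [Measure.restrict_apply_univ, hJ, Real.volume_Ico]
    exact ENNReal.ofReal_lt_top
  set χ : ι → ℝ → ℝ := fun i => (Ico (γ i - h) (γ i)).indicator 1 with hχ
  have hsub : ∀ i ∈ Z, Ico (γ i - h) (γ i) ⊆ J := by
    intro i hi t ht
    have := hγ i hi
    exact ⟨by linarith [ht.1, this.1], by linarith [ht.2, this.2]⟩
  have hχint : ∀ i, Integrable (χ i) (volume.restrict J) := by
    intro i
    exact (integrable_const (1:ℝ)).indicator measurableSet_Ico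
  have hprod : ∀ i j t, χ i t * χ j t =
      (Ico (max (γ i) (γ j) - h) (min (γ i) (γ j))).indicator 1 t := by
    intro i j t
    have e : Ico (max (γ i) (γ j) - h) (min (γ i) (γ j)) =
        Ico (γ i - h) (γ i) ∩ Ico (γ j - h) (γ j) := by
      ext t
      simp only [mem_Ico, mem_inter_iff, lt_min_iff]
      constructor
      · rintro ⟨h1, h2, h3⟩
        have h4 := le_max_left (γ i) (γ j)
        have h5 := le_max_right (γ i) (γ j)
        exact ⟨⟨by linarith, h2⟩, ⟨by linarith, h3⟩⟩
      · rintro ⟨⟨h1, h2⟩, ⟨h3, h4⟩⟩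
        refine ⟨?_, h2, h4⟩
        rcases max_choice (γ i) (γ j) with h5 | h5 <;> rw [h5] <;> linarith
    rw [e]
    simp only [hχ]
    rw [Set.inter_indicator_one]
    rfl
  have hχ1 : ∀ i ∈ Z, ∫ t in J, χ i t = h := by
    intro i hi
    rw [hχ]
    simp only
    rw [integral_indicator_one measurableSet_Ico, measureReal_restrict_apply measurableSet_Ico,
      inter_eq_self_of_subset_left (hsub i hi), Real.volume_real_Ico_of_le (by linarith)]
    ring
  have hχ2 : ∀ i ∈ Z, ∀ j ∈ Z, ∫ t in J, χ i t * χ j t = max 0 (h - |γ i - γ j|) := by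
    intro i hi j hj
    simp only [hprod]
    have hs : Ico (max (γ i) (γ j) - h) (min (γ i) (γ j)) ⊆ J := by
      intro t ht
      apply hsub i hi
      have h4 := le_max_left (γ i) (γ j)
      have h5 := min_le_left (γ i) (γ j)
      exact ⟨by linarith [ht.1], by linarith [ht.2]⟩
    rw [integral_indicator_one measurableSet_Ico, measureReal_restrict_apply measurableSet_Ico,
      inter_eq_self_of_subset_left hs, Real.volume_real_Ico]
    have e : min (γ i) (γ j) - (max (γ i) (γ j) - h) = h - |γ i - γ j| := by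
      rcases le_total (γ i) (γ j) with h6 | h6
      · rw [min_eq_left h6, max_eq_right h6, abs_of_nonpos (by linarith)]; ring
      · rw [min_eq_right h6, max_eq_left h6, abs_of_nonneg (by linarith)]; ring
    rw [e, max_comm]
  have hχχint : ∀ i j, Integrable (fun t => χ i t * χ j t) (volume.restrict J) := by
    intro i j
    simp only [hprod]
    exact (integrable_const (1:ℝ)).indicator measurableSet_Ico
  set S1 : ℝ := h * ∑ i ∈ Z, m i with hS1
  set S2 : ℝ := ∑ i ∈ Z, ∑ j ∈ Z, m i * m j * max 0 (h - |γ i - γ j|) with hS2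
  have hI1 : ∫ t in J, ∑ i ∈ Z, m i * χ i t = S1 := by
    rw [integral_finsetSum]
    · rw [hS1, Finset.mul_sum]
      apply Finset.sum_congr rfl
      intro i hi
      rw [integral_const_mul, hχ1 i hi]; ring
    · intro i _; exact (hχint i).const_mul _
  have hI2 : ∫ t in J, (∑ i ∈ Z, m i * χ i t) ^ 2 = S2 := by
    have e : ∀ t, (∑ i ∈ Z, m i * χ i t) ^ 2 = ∑ i ∈ Z, ∑ j ∈ Z, m i * m j * (χ i t * χ j t) := by
      intro t
      rw [sq, Finset.sum_mul_sum]
      apply Finset.sum_congr rfl; intro i _
      apply Finset.sum_congr rfl; intro j _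
      ring
    simp only [e]
    rw [integral_finsetSum]
    · rw [hS2]
      apply Finset.sum_congr rfl; intro i hi
      rw [integral_finsetSum]
      · apply Finset.sum_congr rfl; intro j hj
        rw [integral_const_mul, hχ2 i hi j hj]
      · intro j _; exact (hχχint i j).const_mul _
    · intro i _
      apply integrable_finsetSum
      intro j _; exact (hχχint i j).const_mul _
  have hint1 : Integrable (fun t => ∑ i ∈ Z, m i * χ i t) (volume.restrict J) :=
    integrable_finsetSum _ fun i _ => (hχint i).const_mul _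
  have hint2 : Integrable (fun t => (∑ i ∈ Z, m i * χ i t) ^ 2) (volume.restrict J) := by
    have e : (fun t => (∑ i ∈ Z, m i * χ i t) ^ 2) =
        fun t => ∑ i ∈ Z, ∑ j ∈ Z, m i * m j * (χ i t * χ j t) := by
      ext t
      rw [sq, Finset.sum_mul_sum]
      apply Finset.sum_congr rfl; intro i _
      apply Finset.sum_congr rfl; intro j _
      ring
    rw [e]
    apply integrable_finsetSum; intro i _
    apply integrable_finsetSum; intro j _
    exact (hχχint i j).const_mul _
  have hTh : 0 < T + h := by linarith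
  have hnn : 0 ≤ ∫ t in J, ((∑ i ∈ Z, m i * χ i t) - S1 / (T + h)) ^ 2 :=
    integral_nonneg fun t => sq_nonneg _
  have hexp : ∫ t in J, ((∑ i ∈ Z, m i * χ i t) - S1 / (T + h)) ^ 2 =
      S2 - 2 * (S1 / (T + h)) * S1 + (S1 / (T + h)) ^ 2 * (T + h) := by
    have e : ∀ t, ((∑ i ∈ Z, m i * χ i t) - S1 / (T + h)) ^ 2 =
        (∑ i ∈ Z, m i * χ i t) ^ 2 - 2 * (S1 / (T + h)) * (∑ i ∈ Z, m i * χ i t) +
          (S1 / (T + h)) ^ 2 := by intro t; ring
    simp only [e]
    rw [integral_add, integral_sub, hI2, integral_const_mul, hI1]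
    · congr 1
      rw [integral_const, measureReal_restrict_apply MeasurableSet.univ, univ_inter, hJv,
        smul_eq_mul]
      ring
    · exact hint2
    · exact hint1.const_mul _
    · exact hint2.sub (hint1.const_mul _)
    · exact integrable_const _
  rw [hexp] at hnn
  have e2 : S2 - 2 * (S1 / (T + h)) * S1 + (S1 / (T + h)) ^ 2 * (T + h) = S2 - S1 ^ 2 / (T + h) := by
    field_simp; ring
  rw [e2] at hnn
  have h7 : S1 ^ 2 / (T + h) ≤ S2 := by linarith
  rw [div_le_iff₀ hTh] at h7
  linarith

/-- Layer cake: (B-|u|)₊ is at most a Riemann sum of indicators of symmetric intervals. -/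
lemma layer_cake {Δ : ℝ} (hΔ : 0 < Δ) (u : ℝ) (J : ℕ) :
    (J : ℝ) * Δ - |u| ≤ ∑ j ∈ Finset.range J, (if |u| ≤ ((j : ℝ) + 1) * Δ then Δ else 0) := by
  induction J with
  | zero => simp
  | succ J ih =>
    rw [Finset.sum_range_succ]
    push_cast
    split_ifs with h
    · linarith
    · have h0 : 0 ≤ ∑ j ∈ Finset.range J, (if |u| ≤ ((j : ℝ) + 1) * Δ then Δ else 0) := by
        apply Finset.sum_nonneg
        intro j _; split_ifs <;> linarith
      rw [not_le] at h
      linarith

end Pool.Agent.Helper57.PC
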