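import Pool.Agent.Helper57.Zeta.Rvm
import Pool.Agent.Helper57.PC.CS
import Pool.Agent.Helper57.PC.Sinc

open Filter Topology MeasureTheory Set
open Pool.Agent.Helper57.Zeta

namespace Pool.Agent.Helper57.PC

/-- normalised difference of ordinates -/
noncomputable def nd (T : ℝ) (p : ℂ × ℂ) : ℝ := (p.1.im - p.2.im) * Real.log T / (2 * Real.pi)

open Classical in
lemma pairCount_eq (T a b : ℝ) :
    pairCount T a b = ∑ p ∈ Zf T ×ˢ Zf T,
      if nd T p ∈ Icc a b then (mult p.1 : ℝ) * (mult p.2 : ℝ) else 0 := by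
  unfold pairCount
  rw [finsum_mem_eq_sum_of_inter_support_eq
    (t := (Zf T ×ˢ Zf T).filter (fun p => nd T p ∈ Icc a b))]
  · rw [Finset.sum_filter]
  · ext p
    simp only [mem_inter_iff, mem_ofPred_eq, Finset.coe_filter, Finset.mem_product]
    constructor
    · rintro ⟨⟨h1, h2, h3⟩, h4⟩
      refine ⟨⟨⟨mem_Zf.mpr h1, mem_Zf.mpr h2⟩, h3⟩, h4⟩
    · rintro ⟨⟨⟨h1, h2⟩, h3⟩, h4⟩
      exact ⟨⟨mem_Zf.mp h1, mem_Zf.mp h2, h3⟩, h4⟩

lemma pairCount_nonneg (T a b : ℝ) : 0 ≤ pairCount T a b := by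
  classical
  rw [pairCount_eq]
  apply Finset.sum_nonneg
  intro p _
  split_ifs <;> positivity

lemma pairCount_mono (T : ℝ) {a b a' b' : ℝ} (ha : a' ≤ a) (hb : b ≤ b') :
    pairCount T a b ≤ pairCount T a' b' := by
  classical
  rw [pairCount_eq, pairCount_eq]
  apply Finset.sum_le_sum
  intro p _
  by_cases h : nd T p ∈ Icc a b
  · rw [if_pos h, if_pos ⟨ha.trans h.1, h.2.trans hb⟩]
  · rw [if_neg h]
    split_ifs <;> positivity

lemma pairCount_split (T : ℝ) (a b c : ℝ) :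
    pairCount T a c ≤ pairCount T a b + pairCount T b c := by
  classical
  rw [pairCount_eq, pairCount_eq, pairCount_eq, ← Finset.sum_add_distrib]
  apply Finset.sum_le_sum
  intro p _
  have hm : (0:ℝ) ≤ (mult p.1 : ℝ) * (mult p.2 : ℝ) := by positivity
  by_cases h : nd T p ∈ Icc a c
  · rw [if_pos h]
    rcases le_total (nd T p) b with h1 | h1
    · rw [if_pos (show nd T p ∈ Icc a b from ⟨h.1, h1⟩)]
      split_ifs <;> linarith
    · rw [if_pos (show nd T p ∈ Icc b c from ⟨h1, h.2⟩)]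
      split_ifs <;> linarith
  · rw [if_neg h]
    split_ifs <;> linarith

lemma pairCount_neg (T a b : ℝ) : pairCount T (-b) (-a) = pairCount T a b := by
  classical
  rw [pairCount_eq, pairCount_eq]
  have hnd : ∀ p : ℂ × ℂ, nd T p.swap = - nd T p := by
    intro p; unfold nd; simp only [Prod.fst_swap, Prod.snd_swap]; ring
  refine Finset.sum_bij' (fun p _ => p.swap) (fun p _ => p.swap) ?_ ?_ ?_ ?_ ?_
  · intro p hp
    rw [Finset.mem_product] at hp ⊢
    exact ⟨hp.2, hp.1⟩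
  · intro p hp
    rw [Finset.mem_product] at hp ⊢
    exact ⟨hp.2, hp.1⟩
  · intro p _; exact Prod.swap_swap p
  · intro p _; exact Prod.swap_swap p
  · intro p _
    have h1 : nd T p ∈ Icc (-b) (-a) ↔ nd T p.swap ∈ Icc a b := by
      rw [hnd]
      constructor
      · rintro ⟨h1, h2⟩; exact ⟨by linarith, by linarith⟩
      · rintro ⟨h1, h2⟩; exact ⟨by linarith, by linarith⟩
    by_cases h : nd T p ∈ Icc (-b) (-a)
    · rw [if_pos h, if_pos (h1.mp h)]
      simp only [Prod.fst_swap, Prod.snd_swap]; ring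
    · rw [if_neg h, if_neg (fun h2 => h (h1.mpr h2))]

lemma pairCount_sym_le (T : ℝ) {e b : ℝ} :
    pairCount T (-b) b ≤ pairCount T (-e) e + 2 * pairCount T e b := by
  have h1 := pairCount_split T (-b) (-e) b
  have h2 := pairCount_split T (-e) e b
  have h3 := pairCount_neg T e b
  linarith

/-- the normalisation -/
noncomputable def SN (T : ℝ) : ℝ := T * Real.log T / (2 * Real.pi)

/-- Cauchy-Schwarz in terms of pair counts. -/
lemma pairCount_CS {T : ℝ} (hT : 1 < T) {Δ : ℝ} (hΔ : 0 < Δ) (J : ℕ) (hJ : 0 < J) :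
    ((J:ℝ) * Δ) ^ 2 * (2 * Real.pi / Real.log T) * NT T ^ 2 ≤
      (T + 2 * Real.pi * ((J:ℝ) * Δ) / Real.log T) *
        (Δ * ∑ j ∈ Finset.range J, pairCount T (-(((j:ℝ) + 1) * Δ)) (((j:ℝ) + 1) * Δ)) := by
  classical
  set L := Real.log T with hL
  have hL0 : 0 < L := Real.log_pos hT
  have hT0 : 0 < T := by linarith
  set B : ℝ := (J:ℝ) * Δ with hB
  have hB0 : 0 < B := by rw [hB]; have : (0:ℝ) < J := by exact_mod_cast hJ
                         positivity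
  have hpi := Real.pi_pos
  set h : ℝ := 2 * Real.pi * B / L with hh
  have hh0 : 0 < h := by rw [hh]; positivity
  have hCS := window_CS (Zf T) (fun ρ => ρ.im) (fun ρ => (mult ρ : ℝ)) hh0 hT0 (by
    intro ρ hρ
    rw [mem_Zf] at hρ
    exact ⟨hρ.2.1, hρ.2.2⟩)
  have hle : ∑ i ∈ Zf T, ∑ j ∈ Zf T, (mult i : ℝ) * (mult j : ℝ) * max 0 (h - |i.im - j.im|) ≤
      (2 * Real.pi / L) * (Δ * ∑ j ∈ Finset.range J, pairCount T (-(((j:ℝ) + 1) * Δ)) (((j:ℝ) + 1) * Δ)) := by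
    have e1 : ∀ j : ℕ, pairCount T (-(((j:ℝ) + 1) * Δ)) (((j:ℝ) + 1) * Δ) =
        ∑ p ∈ Zf T ×ˢ Zf T, if |nd T p| ≤ ((j:ℝ) + 1) * Δ then (mult p.1 : ℝ) * (mult p.2 : ℝ) else 0 := by
      intro j
      rw [pairCount_eq]
      apply Finset.sum_congr rfl
      intro p _
      simp only [mem_Icc, abs_le]
    simp only [e1]
    have e6 : ∑ j ∈ Finset.range J, ∑ p ∈ Zf T ×ˢ Zf T,
        (if |nd T p| ≤ ((j:ℝ) + 1) * Δ then (mult p.1 : ℝ) * (mult p.2 : ℝ) else 0) =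
        ∑ p ∈ Zf T ×ˢ Zf T, ∑ j ∈ Finset.range J,
        (if |nd T p| ≤ ((j:ℝ) + 1) * Δ then (mult p.1 : ℝ) * (mult p.2 : ℝ) else 0) :=
      Finset.sum_comm
    have e7 : ∑ i ∈ Zf T, ∑ j ∈ Zf T, (mult i : ℝ) * (mult j : ℝ) * max 0 (h - |i.im - j.im|) =
        ∑ p ∈ Zf T ×ˢ Zf T, (mult p.1 : ℝ) * (mult p.2 : ℝ) * max 0 (h - |p.1.im - p.2.im|) := by
      rw [Finset.sum_product]
    rw [e6, e7, Finset.mul_sum, Finset.mul_sum]
    apply Finset.sum_le_sum
    intro p _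
    set mm : ℝ := (mult p.1 : ℝ) * (mult p.2 : ℝ) with hmm
    have hmm0 : 0 ≤ mm := by positivity
    have hlc := layer_cake hΔ (nd T p) J
    have e2 : h - |p.1.im - p.2.im| = (2 * Real.pi / L) * (B - |nd T p|) := by
      have e3 : |nd T p| = |p.1.im - p.2.im| * L / (2 * Real.pi) := by
        unfold nd
        rw [abs_div, abs_mul, abs_of_pos hL0, abs_of_pos (show 0 < 2 * Real.pi by positivity)]
      rw [e3, hh]
      field_simp
    have e4 : max 0 (h - |p.1.im - p.2.im|) ≤ (2 * Real.pi / L) *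
        ∑ j ∈ Finset.range J, (if |nd T p| ≤ ((j : ℝ) + 1) * Δ then Δ else 0) := by
      apply max_le
      · apply mul_nonneg (by positivity)
        apply Finset.sum_nonneg; intro j _; split_ifs <;> linarith
      · rw [e2]
        apply mul_le_mul_of_nonneg_left _ (by positivity)
        exact hlc
    calc mm * max 0 (h - |p.1.im - p.2.im|) ≤ mm * ((2 * Real.pi / L) *
        ∑ j ∈ Finset.range J, (if |nd T p| ≤ ((j : ℝ) + 1) * Δ then Δ else 0)) :=
          mul_le_mul_of_nonneg_left e4 hmm0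
      _ = (2 * Real.pi / L) * (Δ * ∑ j ∈ Finset.range J,
            (if |nd T p| ≤ ((j:ℝ) + 1) * Δ then mm else 0)) := by
          have : mm * ∑ j ∈ Finset.range J, (if |nd T p| ≤ ((j : ℝ) + 1) * Δ then Δ else 0) =
              Δ * ∑ j ∈ Finset.range J, (if |nd T p| ≤ ((j:ℝ) + 1) * Δ then mm else 0) := by
            rw [Finset.mul_sum, Finset.mul_sum]
            apply Finset.sum_congr rfl
            intro j _
            split_ifs <;> ring
          rw [← this]; ring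
  have hTh : 0 ≤ T + h := by linarith
  have h1 : (h * NT T) ^ 2 ≤ (T + h) * ((2 * Real.pi / L) * (Δ * ∑ j ∈ Finset.range J,
      pairCount T (-(((j:ℝ) + 1) * Δ)) (((j:ℝ) + 1) * Δ))) :=
    hCS.trans (mul_le_mul_of_nonneg_left hle hTh)
  have h2 : (2 * Real.pi / L) * (B ^ 2 * (2 * Real.pi / L) * NT T ^ 2) ≤
      (2 * Real.pi / L) * ((T + h) * (Δ * ∑ j ∈ Finset.range J,
      pairCount T (-(((j:ℝ) + 1) * Δ)) (((j:ℝ) + 1) * Δ))) := by
    have e5 : (2 * Real.pi / L) * (B ^ 2 * (2 * Real.pi / L) * NT T ^ 2) = (h * NT T) ^ 2 := by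
      rw [hh]; ring
    rw [e5]
    refine h1.trans (le_of_eq ?_)
    ring
  exact le_of_mul_le_mul_left h2 (by positivity)

/-- The mesoscopic lower bound: 
(1-ε)(JΔ)² S(T) ≤ Δ ∑ P_T(-jΔ, jΔ) for T large. -/
lemma meso_lower {Δ : ℝ} (hΔ : 0 < Δ) (J : ℕ) (hJ : 0 < J) {ε : ℝ} (hε : 0 < ε) :
    ∀ᶠ T in atTop, (1 - ε) * ((J:ℝ) * Δ) ^ 2 * SN T ≤
      Δ * ∑ j ∈ Finset.range J, pairCount T (-(((j:ℝ) + 1) * Δ)) (((j:ℝ) + 1) * Δ) := by
  set B : ℝ := (J:ℝ) * Δ with hB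
  have hB0 : 0 < B := by rw [hB]; have : (0:ℝ) < J := by exact_mod_cast hJ
                         positivity
  set e : ℝ := min (ε / 4) (1 / 2) with he
  have he0 : 0 < e := by rw [he]; positivity
  have he4 : e ≤ ε / 4 := min_le_left _ _
  have he2 : e ≤ 1 / 2 := min_le_right _ _
  obtain ⟨T₀, hT₀⟩ := NT_lower e he0
  have hpi := Real.pi_pos
  filter_upwards [eventually_ge_atTop T₀, eventually_ge_atTop (Real.exp 1),
    eventually_ge_atTop (2 * Real.pi * B / e)] with T h1 h2 h3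
  have hexp : 1 < Real.exp 1 := Real.one_lt_exp_iff.mpr one_pos
  have hT1 : 1 < T := lt_of_lt_of_le hexp h2
  have hT0 : 0 < T := by linarith
  have hL1 : 1 ≤ Real.log T := by
    have := Real.log_le_log (Real.exp_pos 1) h2
    rwa [Real.log_exp] at this
  have hCS := pairCount_CS hT1 hΔ J hJ
  rw [← hB] at hCS
  set L := Real.log T with hL
  set P := Δ * ∑ j ∈ Finset.range J, pairCount T (-(((j:ℝ) + 1) * Δ)) (((j:ℝ) + 1) * Δ) with hP
  have hP0 : 0 ≤ P := by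
    rw [hP]
    apply mul_nonneg hΔ.le
    exact Finset.sum_nonneg fun j _ => pairCount_nonneg _ _ _
  have hN := hT₀ T h1
  have hS : T * L / (2 * Real.pi) = SN T := rfl
  rw [hS] at hN
  have hS0 : 0 < SN T := by rw [← hS]; positivity
  have hN2 : ((1 - e) * SN T) ^ 2 ≤ NT T ^ 2 := by
    apply pow_le_pow_left₀ _ hN
    apply mul_nonneg (by linarith) hS0.le
  have h4 : B ^ 2 * (2 * Real.pi / L) * ((1 - e) * SN T) ^ 2 ≤ (T + 2 * Real.pi * B / L) * P :=
    le_trans (mul_le_mul_of_nonneg_left hN2 (by positivity)) hCS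
  have h5 : B ^ 2 * (2 * Real.pi / L) * ((1 - e) * SN T) ^ 2 = T * (B ^ 2 * (1 - e) ^ 2 * SN T) := by
    rw [← hS]; field_simp
  have h6 : T + 2 * Real.pi * B / L ≤ T * (1 + e) := by
    have h7 : 2 * Real.pi * B / L ≤ 2 * Real.pi * B := by
      apply div_le_self (by positivity) hL1
    rw [div_le_iff₀ he0] at h3
    linarith
  have h8 : T * (B ^ 2 * (1 - e) ^ 2 * SN T) ≤ T * ((1 + e) * P) := by
    rw [← h5]
    refine h4.trans ?_
    calc (T + 2 * Real.pi * B / L) * P ≤ T * (1 + e) * P := mul_le_mul_of_nonneg_right h6 hP0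
      _ = _ := by ring
  have h9 : B ^ 2 * (1 - e) ^ 2 * SN T ≤ (1 + e) * P := le_of_mul_le_mul_left h8 hT0
  -- (1-ε)(1+e) ≤ (1-e)²
  have h10 : (1 - ε) * (1 + e) ≤ (1 - e) ^ 2 := by nlinarith
  have hX : 0 ≤ B ^ 2 * SN T := by positivity
  have h11 : (1 + e) * ((1 - ε) * B ^ 2 * SN T) ≤ (1 + e) * P := by
    calc (1 + e) * ((1 - ε) * B ^ 2 * SN T) = ((1 - ε) * (1 + e)) * (B ^ 2 * SN T) := by ring
      _ ≤ (1 - e) ^ 2 * (B ^ 2 * SN T) := mul_le_mul_of_nonneg_right h10 hX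
      _ = B ^ 2 * (1 - e) ^ 2 * SN T := by ring
      _ ≤ _ := h9
  exact le_of_mul_le_mul_left h11 (by linarith)

end Pool.Agent.Helper57.PC
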