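import Pool.Agent.Helper57.PC.UpperHalf

open Filter Topology
open Pool.Agent.Helper57.PC

/-- The upper-bound half of the pair correlation conjecture, together with a bound 1+κ for the
normalised number of near-diagonal pairs, implies the full asymptotic formula up to κ/2.
For κ = 0 the conclusion is exactly the asymptotic formula of Q1 for every 0 < α < β. -/
theorem Pool.Agent.Helper57.PC.upperHalfSuffices
    (κ : ℝ) (hκ : 0 ≤ κ)
    (hU : ∀ α β : ℝ, 0 < α → α < β → ∀ δ : ℝ, 0 < δ → ∀ᶠ T : ℝ in atTop,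
      pairCount T α β ≤
        ((∫ u in α..β, pcDensity u) + δ) * (T * Real.log T / (2 * Real.pi)))
    (hD : ∀ δ : ℝ, 0 < δ → ∃ ε : ℝ, 0 < ε ∧ ∀ᶠ T : ℝ in atTop,
      pairCount T (-ε) ε ≤ (1 + κ + δ) * (T * Real.log T / (2 * Real.pi))) :
    ∀ α β : ℝ, 0 < α → α < β → ∀ δ : ℝ, 0 < δ → ∀ᶠ T : ℝ in atTop,
      |pairCount T α β / (T * Real.log T / (2 * Real.pi)) - ∫ u in α..β, pcDensity u| ≤
        κ / 2 + δ := by
  intro α β hα hαβ δ hδ
  have hlow := upper_implies_lower κ hκ hU hD α β hα hαβ δ hδ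
  filter_upwards [hlow, hU α β hα hαβ δ hδ, eventually_gt_atTop 1] with T h1 h2 hT
  have hS : 0 < T * Real.log T / (2 * Real.pi) := SN_pos hT
  have h1' : ((∫ u in α..β, pcDensity u) - (κ / 2 + δ)) * (T * Real.log T / (2 * Real.pi)) ≤
      pairCount T α β := h1
  rw [abs_le]
  constructor
  · have := (le_div_iff₀ hS).mpr h1'
    linarith
  · have := (div_le_iff₀ hS).mpr h2
    linarith
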